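import Pool.Agent.H.MP_f3ccbb_lc.A

set_option autoImplicit false

namespace Pool.Agent.H.MP_c5d8fa_lc

open Finset Pool.Agent.H.MP_f3ccbb_lc
open scoped ENNReal

section exp
variable {α : Type} [Fintype α] {E : (α → ℝ) → ℝ}

lemma ie_mono (e : IsExp E) {f g : α → ℝ} (h : ∀ a, f a ≤ g a) : E f ≤ E g := by
  obtain ⟨w, a, _, d⟩ := e
  rw [d, d]
  exact sum_le_sum fun x _ => mul_le_mul_of_nonneg_left (h x) (a x)

lemma ie_add (e : IsExp E) (f g : α → ℝ) : E (fun a => f a + g a) = E f + E g := by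
  obtain ⟨w, _, _, d⟩ := e
  simp only [d, mul_add, sum_add_distrib]

lemma ie_sub (e : IsExp E) (f g : α → ℝ) : E (fun a => f a - g a) = E f - E g := by
  obtain ⟨w, _, _, d⟩ := e
  simp only [d, mul_sub, sum_sub_distrib]

lemma ie_mul (e : IsExp E) (c : ℝ) (f : α → ℝ) : E (fun a => c * f a) = c * E f := by
  obtain ⟨w, _, _, d⟩ := e
  simp only [d, mul_sum]
  exact sum_congr rfl fun _ _ => by ring

lemma ie_const (e : IsExp E) (c : ℝ) : E (fun _ => c) = c := by
  obtain ⟨w, _, b, d⟩ := e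
  rw [d, ← sum_mul, b, one_mul]

lemma ie_sum (e : IsExp E) {β : Type} (s : Finset β) (f : β → α → ℝ) :
    E (fun a => ∑ b ∈ s, f b a) = ∑ b ∈ s, E (f b) := by
  obtain ⟨w, _, _, d⟩ := e
  simp only [d, mul_sum]
  exact sum_comm

lemma ie_bind {β : Type} [Fintype β] (e : IsExp E) {F : α → (β → ℝ) → ℝ} (hF : ∀ a, IsExp (F a)) :
    IsExp (fun f => E (fun a => F a f)) := by
  obtain ⟨w, a, b, d⟩ := e
  choose u a' b' d' using hF
  refine ⟨fun y => ∑ x, w x * u x y, fun y => sum_nonneg fun x _ => mul_nonneg (a x) (a' x y), ?_,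
    fun f => ?_⟩
  · rw [sum_comm]
    simp only [← mul_sum, b', mul_one, b]
  · simp only [d, d', mul_sum, sum_mul, mul_assoc]
    exact sum_comm

lemma ie_pmf (p : PMF α) : IsExp (fun f => ∑ a, (p a).toReal * f a) :=
  ⟨fun a => (p a).toReal, fun _ => ENNReal.toReal_nonneg, by
    rw [← ENNReal.toReal_sum (fun a _ => p.apply_ne_top a), pmf_sum, ENNReal.toReal_one],
    fun _ => rfl⟩

end exp

structure Alg (X : Type) where
  ini : PMF X
  vary : X → ℕ → PMF X
  sel : X → ℕ → X → ℕ → PMF Bool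

variable {X : Type} [Fintype X] [DecidableEq X] (A : Alg X)

noncomputable def Step (f : X → ℕ) (Φ : X × Finset X → ℝ) (s : X × Finset X) : ℝ :=
  ∑ y, (A.vary s.1 (f s.1) y).toReal * ∑ b, (A.sel s.1 (f s.1) y (f y) b).toReal *
    Φ (if b = true then y else s.1, insert y s.2)

noncomputable def Ev (f : X → ℕ) (t : ℕ) (Φ : X × Finset X → ℝ) : X × Finset X → ℝ :=
  (Step A f)^[t] Φ

noncomputable def EE (f : X → ℕ) (t : ℕ) (Φ : X × Finset X → ℝ) : ℝ :=
  ∑ x, (A.ini x).toReal * Ev A f t Φ (x, {x})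

lemma Ev_succ (f : X → ℕ) (t : ℕ) (Φ : X × Finset X → ℝ) :
    Ev A f (t + 1) Φ = Step A f (Ev A f t Φ) := Function.iterate_succ_apply' _ _ _

lemma Ev_add (f : X → ℕ) (s t : ℕ) (Φ : X × Finset X → ℝ) :
    Ev A f (s + t) Φ = Ev A f s (Ev A f t Φ) := Function.iterate_add_apply _ _ _ _

lemma ie_Step (f : X → ℕ) (s : X × Finset X) : IsExp (fun Φ => Step A f Φ s) :=
  ie_bind (ie_pmf (A.vary s.1 (f s.1))) (fun y => ie_bind (ie_pmf (A.sel s.1 (f s.1) y (f y)))
    (fun b => IsExp.pure ((if b = true then y else s.1, insert y s.2) : X × Finset X)))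

lemma ie_Ev (f : X → ℕ) (t : ℕ) : ∀ s : X × Finset X, IsExp (fun Φ => Ev A f t Φ s) := by
  induction t with
  | zero => exact fun s => IsExp.pure s
  | succ t ih =>
    intro s
    simp only [Ev_succ]
    exact ie_bind (ie_Step A f s) ih

lemma ie_EE (f : X → ℕ) (t : ℕ) : IsExp (EE A f t) :=
  ie_bind (ie_pmf A.ini) (fun x => ie_Ev A f t (x, {x}))

lemma EE_add (f : X → ℕ) (s t : ℕ) (Φ : X × Finset X → ℝ) :
    EE A f (s + t) Φ = EE A f s (Ev A f t Φ) := by simp only [EE, Ev_add]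

variable {A}

lemma Step_le {f : X → ℕ} {Φ : X × Finset X → ℝ} {s : X × Finset X} {c : ℝ}
    (h : ∀ y b, Φ (if b = true then y else s.1, insert y s.2) ≤ c) : Step A f Φ s ≤ c :=
  (ie_pmf (A.vary s.1 (f s.1))).le_const fun y => (ie_pmf (A.sel s.1 (f s.1) y (f y))).le_const (h y)

lemma Step_congr {f f' : X → ℕ} {Φ Ψ : X × Finset X → ℝ} {x : X} {Y Y' : Finset X}
    (hx : f x = f' x) (h : ∀ y, (f y = f' y ∧ ∀ b, Φ (if b = true then y else x, insert y Y)
      = Ψ (if b = true then y else x, insert y Y')) ∨ ∀ b,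
      Φ (if b = true then y else x, insert y Y) = 0 ∧ Ψ (if b = true then y else x, insert y Y') = 0) :
    Step A f Φ (x, Y) = Step A f' Ψ (x, Y') := by
  unfold Step
  refine sum_congr rfl fun y _ => ?_
  rcases h y with ⟨h1, h2⟩ | h1
  · simp only [hx, h1, h2]
  · simp only [(h1 _).1, (h1 _).2, mul_zero, sum_const_zero]

/-- monotone comparison on states whose stored point was queried -/
lemma Ev_mono_on (f : X → ℕ) {Φ Ψ : X × Finset X → ℝ} (h : ∀ s, s.1 ∈ s.2 → Φ s ≤ Ψ s) (t : ℕ) :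
    ∀ s : X × Finset X, s.1 ∈ s.2 → Ev A f t Φ s ≤ Ev A f t Ψ s := by
  induction t with
  | zero => exact h
  | succ t ih =>
    intro s hs
    rw [Ev_succ, Ev_succ]
    refine ie_mono (ie_pmf (A.vary s.1 (f s.1))) fun y =>
      ie_mono (ie_pmf (A.sel s.1 (f s.1) y (f y))) fun b => ih _ ?_
    dsimp only
    split_ifs <;> simp [hs]

lemma EE_mono_on (f : X → ℕ) {Φ Ψ : X × Finset X → ℝ} (h : ∀ s, s.1 ∈ s.2 → Φ s ≤ Ψ s) (t : ℕ) :
    EE A f t Φ ≤ EE A f t Ψ :=
  ie_mono (ie_pmf A.ini) fun x => Ev_mono_on f h t _ (by simp)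

lemma Ev_zero (f : X → ℕ) {Φ : X × Finset X → ℝ} {N : X → Prop}
    (h : ∀ s : X × Finset X, (∃ y ∈ s.2, ¬ N y) → Φ s = 0) (t : ℕ) :
    ∀ s : X × Finset X, (∃ y ∈ s.2, ¬ N y) → Ev A f t Φ s = 0 := by
  induction t with
  | zero => exact h
  | succ t ih =>
    rintro s ⟨y, hy, hN⟩
    rw [Ev_succ, Step]
    refine sum_eq_zero fun y' _ => ?_
    rw [sum_eq_zero, mul_zero]
    intro b _
    rw [ih _ ⟨y, mem_insert_of_mem hy, hN⟩, mul_zero]

lemma Ev_couple {f f' : X → ℕ} {Φ : X × Finset X → ℝ} {N : X → Prop} (hf : ∀ y, N y → f y = f' y)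
    (h : ∀ s : X × Finset X, (∃ y ∈ s.2, ¬ N y) → Φ s = 0) (t : ℕ) :
    ∀ x Y, x ∈ Y → Ev A f t Φ (x, Y) = Ev A f' t Φ (x, Y) := by
  induction t with
  | zero => intro _ _ _; rfl
  | succ t ih =>
    intro x Y hx
    by_cases hN : N x
    · rw [Ev_succ, Ev_succ]
      refine Step_congr (hf x hN) fun y => ?_
      by_cases hy : N y
      · refine Or.inl ⟨hf y hy, fun b => ih _ _ ?_⟩
        split_ifs <;> simp [hx]
      · exact Or.inr fun b => ⟨Ev_zero f h t _ ⟨y, mem_insert_self _ _, hy⟩,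
          Ev_zero f' h t _ ⟨y, mem_insert_self _ _, hy⟩⟩
    · rw [Ev_zero f h _ _ ⟨x, hx, hN⟩, Ev_zero f' h _ _ ⟨x, hx, hN⟩]

lemma EE_couple {f f' : X → ℕ} {Φ : X × Finset X → ℝ} {N : X → Prop} (hf : ∀ y, N y → f y = f' y)
    (h : ∀ s : X × Finset X, (∃ y ∈ s.2, ¬ N y) → Φ s = 0) (t : ℕ) : EE A f t Φ = EE A f' t Φ :=
  sum_congr rfl fun x _ => by rw [Ev_couple hf h t x _ (by simp)]

lemma Ev_filter (f : X → ℕ) (a : X → Prop) [DecidablePred a] (φ : Finset X → ℝ) (t : ℕ) :
    ∀ x Y Y', Y.filter a = Y'.filter a → Ev A f t (fun s => φ (s.2.filter a)) (x, Y)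
      = Ev A f t (fun s => φ (s.2.filter a)) (x, Y') := by
  induction t with
  | zero => intro x Y Y' h; simp [Ev, h]
  | succ t ih =>
    intro x Y Y' h
    rw [Ev_succ]
    refine Step_congr rfl fun y => Or.inl ⟨rfl, fun b => ih _ _ _ ?_⟩
    rw [filter_insert, filter_insert, h]

lemma le_Ev (f : X → ℕ) {φ : Finset X → ℝ} (h : Monotone φ) (t : ℕ) :
    ∀ s : X × Finset X, φ s.2 ≤ Ev A f t (fun s => φ s.2) s := by
  induction t with
  | zero => exact fun s => le_rfl
  | succ t ih =>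
    intro s
    rw [Ev_succ]
    have h1 : Step A f (fun s' => - Ev A f t (fun s => φ s.2) s') s ≤ - φ s.2 :=
      Step_le fun y b => neg_le_neg ((h (subset_insert y s.2)).trans
        (ih (if b = true then y else s.1, insert y s.2)))
    have h2 := ie_mul (ie_Step A f s) (-1) (Ev A f t (fun s => φ s.2))
    simp only [neg_mul, one_mul] at h2
    linarith

lemma Ev_time (f : X → ℕ) {φ : Finset X → ℝ} (h : Monotone φ) {t t' : ℕ} (ht : t ≤ t')
    (s : X × Finset X) : Ev A f t (fun s => φ s.2) s ≤ Ev A f t' (fun s => φ s.2) s := by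
  obtain ⟨d, rfl⟩ := Nat.exists_eq_add_of_le ht
  rw [Ev_add]
  exact ie_mono (ie_Ev A f t s) (le_Ev f h d)

lemma EE_time (f : X → ℕ) {φ : Finset X → ℝ} (h : Monotone φ) {t t' : ℕ} (ht : t ≤ t') :
    EE A f t (fun s => φ s.2) ≤ EE A f t' (fun s => φ s.2) :=
  ie_mono (ie_pmf A.ini) fun x => Ev_time f h ht _

open Classical in
noncomputable def ind (p : Prop) : ℝ := if p then 1 else 0

lemma ind_nonneg (p : Prop) : 0 ≤ ind p := by unfold ind; split_ifs <;> norm_num
lemma ind_le_one (p : Prop) : ind p ≤ 1 := by unfold ind; split_ifs <;> norm_num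
lemma ind_pos {p : Prop} (h : p) : ind p = 1 := by simp [ind, h]
lemma ind_neg {p : Prop} (h : ¬ p) : ind p = 0 := by simp [ind, h]
lemma ind_mono {p q : Prop} (h : p → q) : ind p ≤ ind q := by
  by_cases hp : p
  · rw [ind_pos hp, ind_pos (h hp)]
  · rw [ind_neg hp]; exact ind_nonneg q

lemma window (f : X → ℕ) (a : X → Prop) [DecidablePred a] (bad : Finset X → Prop)
    (hb : ∀ C C', C ⊆ C' → bad C → bad C') (T M : ℕ) :
    T * EE A f M (fun s => ind (s.2.filter a).Nonempty)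
      - (M + T) * ∑ x, Ev A f T (fun s => ind (bad (s.2.filter a))) (x, {x})
      ≤ ∑ t ∈ range (M + T), EE A f t
        (fun s => ind ((s.2.filter a).Nonempty ∧ ¬ bad (s.2.filter a))) := by
  set P : ℕ → ℝ := fun t => EE A f t (fun s => ind (s.2.filter a).Nonempty) with hP
  set δ := ∑ x, Ev A f T (fun s => ind (bad (s.2.filter a))) (x, {x}) with hδ
  set Q : ℕ → ℝ := fun t => EE A f t
    (fun s => ind ((s.2.filter a).Nonempty ∧ ¬ bad (s.2.filter a))) with hQ
  have m1 : Monotone (fun Y : Finset X => ind (Y.filter a).Nonempty) := fun Y Y' h =>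
    ind_mono fun h' => h'.mono (filter_subset_filter _ h)
  have m2 : Monotone (fun Y : Finset X => ind (bad (Y.filter a))) := fun Y Y' h =>
    ind_mono (hb _ _ (filter_subset_filter _ h))
  have hδx : ∀ x, Ev A f T (fun s => ind (bad (s.2.filter a))) (x, {x}) ≤ δ := fun x =>
    single_le_sum (f := fun x => Ev A f T (fun s => ind (bad (s.2.filter a))) (x, {x}))
      (fun x _ => (ie_Ev A f T _).nonneg fun _ => ind_nonneg _) (mem_univ x)
  have hδ0 : 0 ≤ δ := sum_nonneg fun x _ => (ie_Ev A f T _).nonneg fun _ => ind_nonneg _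
  have pw : ∀ t s, Ev A f t (fun s => ind (s.2.filter a).Nonempty) s
      - Ev A f t (fun s => ind (bad (s.2.filter a))) s
      ≤ Ev A f t (fun s => ind ((s.2.filter a).Nonempty ∧ ¬ bad (s.2.filter a))) s := by
    intro t s
    rw [← ie_sub (ie_Ev A f t s)]
    refine ie_mono (ie_Ev A f t s) fun s' => ?_
    unfold ind
    split_ifs <;> simp_all
  have q1 : ∀ t ∈ range T, P t - δ ≤ Q t := by
    intro t ht
    have h1 := ie_sub (ie_pmf A.ini)
      (fun x => Ev A f t (fun s => ind (s.2.filter a).Nonempty) (x, {x})) (fun _ => δ)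
    rw [ie_const (ie_pmf A.ini)] at h1
    refine le_trans (le_of_eq h1.symm) (ie_mono (ie_pmf A.ini) fun x => ?_)
    have h2 := pw t (x, {x})
    have h3 := Ev_time (A := A) f m2 (mem_range.1 ht).le (x, {x})
    have h4 := hδx x
    linarith
  have q2 : ∀ s ∈ range M, P (T + s) - P s - δ ≤ Q (T + s) := by
    intro s _
    simp only [hP, hQ]
    rw [add_comm T s, EE_add, EE_add, ← ie_sub (ie_EE A f s), ← ie_const (ie_EE A f s) δ,
      ← ie_sub (ie_EE A f s)]
    refine EE_mono_on f ?_ s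
    rintro ⟨x, Y⟩ hx
    dsimp only at hx ⊢
    by_cases h1 : (Y.filter a).Nonempty
    · rw [ind_pos h1]
      have h2 : Ev A f T (fun s => ind (s.2.filter a).Nonempty) (x, Y) ≤ 1 :=
        (ie_Ev A f T _).le_const fun _ => ind_le_one _
      have h3 : 0 ≤ Ev A f T (fun s => ind ((s.2.filter a).Nonempty ∧ ¬ bad (s.2.filter a))) (x, Y) :=
        (ie_Ev A f T _).nonneg fun _ => ind_nonneg _
      linarith
    · rw [ind_neg h1]
      have h2 := pw T (x, Y)
      have h3 := Ev_filter (A := A) f a (fun C => ind (bad C)) T x Y {x} (by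
        rw [not_nonempty_iff_eq_empty] at h1
        rw [h1]
        exact (subset_empty.1 (h1 ▸ filter_subset_filter a (singleton_subset_iff.2 hx))).symm)
      have h4 := hδx x
      linarith
  have q3 : ∀ i ∈ range T, P M ≤ P (M + i) := fun i _ => EE_time f m1 (Nat.le_add_right M i)
  have s1 := sum_le_sum q1
  have s2 := sum_le_sum q2
  have s3 := sum_le_sum q3
  have e1 := sum_range_add P M T
  have e2 := sum_range_add P T M
  have e3 := sum_range_add Q T M
  rw [add_comm T M] at e2 e3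
  simp only [sum_sub_distrib, sum_const, card_range, nsmul_eq_mul] at s1 s2 s3
  show T * P M - (M + T) * δ ≤ ∑ t ∈ range (M + T), Q t
  linarith

/-- one round of the flagged chain -/
noncomputable def Tr (A : Alg X) (f : X → ℕ) (z : X) : PMF (X × Bool) → PMF (X × Bool) :=
  fun p : PMF (X × Bool) => p.bind (fun s => if s.2 = true then PMF.pure s else
    (A.vary s.1 (f s.1)).bind (fun y => (A.sel s.1 (f s.1) y (f y)).bind (fun b =>
      PMF.pure (if b = true then y else s.1, decide (y = z)))))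

lemma ofReal_exp {α : Type} [Fintype α] (p : PMF α) (g : α → ℝ) (hg : ∀ a, 0 ≤ g a) :
    ENNReal.ofReal (∑ a, (p a).toReal * g a) = ∑ a, p a * ENNReal.ofReal (g a) := by
  rw [ENNReal.ofReal_sum_of_nonneg (fun a _ => mul_nonneg ENNReal.toReal_nonneg (hg a))]
  refine sum_congr rfl fun a _ => ?_
  rw [ENNReal.ofReal_mul ENNReal.toReal_nonneg, ENNReal.ofReal_toReal (p.apply_ne_top a)]

lemma link (A : Alg X) (f : X → ℕ) (z : X) (t : ℕ) :
    ∑ w, ((Tr A f z)^[t] (A.ini.bind (fun x => PMF.pure (x, decide (x = z))))) (w, false)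
      = ENNReal.ofReal (EE A f t (fun s => ind (z ∉ s.2))) := by
  set Φ : X × Finset X → ℝ := fun s => ind (z ∉ s.2) with hΦ
  have h0 : ∀ t s, 0 ≤ Ev A f t Φ s := fun t s => (ie_Ev A f t s).nonneg fun _ => ind_nonneg _
  have h1 : ∀ t x y, Ev A f t Φ (x, {y}) = if decide (y = z) = true then 0 else Ev A f t Φ (x, ∅) := by
    intro t x y
    split_ifs with h
    · refine Ev_zero f (N := fun y => y ≠ z) ?_ t _ ⟨y, mem_singleton_self y, by simpa using h⟩
      rintro s ⟨y, hy, hN⟩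
      rw [not_not] at hN
      exact ind_neg (not_not.2 (hN ▸ hy))
    · have := Ev_filter (A := A) f (fun y => y = z) (fun C => ind (z ∉ C)) t x {y} ∅ (by
        rw [filter_singleton, if_neg (by simpa using h)]; simp)
      simpa [hΦ] using this
  have key : ∀ (t : ℕ) (p : PMF (X × Bool)), ∑ w, ((Tr A f z)^[t] p) (w, false)
      = ∑ s, p s * ENNReal.ofReal (if s.2 = true then 0 else Ev A f t Φ (s.1, ∅)) := by
    intro t
    induction t with
    | zero =>
      intro p
      simp [Fintype.sum_prod_type, Ev, hΦ, ind]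
    | succ t ih =>
      intro p
      rw [Function.iterate_succ_apply, ih, Tr, bind_sum]
      refine sum_congr rfl fun s _ => ?_
      congr 1
      by_cases hs : s.2 = true
      · rw [if_pos hs, if_pos hs, pure_sum, if_pos hs]
      · rw [if_neg hs, if_neg hs, bind_sum, Ev_succ, Step, ofReal_exp _ _ (fun y =>
          sum_nonneg fun b _ => mul_nonneg ENNReal.toReal_nonneg (h0 _ _))]
        refine sum_congr rfl fun y _ => ?_
        congr 1
        rw [bind_sum, ofReal_exp _ _ (fun b => h0 _ _)]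
        refine sum_congr rfl fun b _ => ?_
        rw [pure_sum]
        simp only [insert_empty_eq, h1]
  rw [key, bind_sum, EE, ofReal_exp _ _ (fun x => h0 _ _)]
  refine sum_congr rfl fun x _ => ?_
  rw [pure_sum, h1]

end Pool.Agent.H.MP_c5d8fa_lc
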