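import Pool.Agent.H.MP_c5d8fa_lc.A

set_option autoImplicit false

namespace Pool.Agent.H.MP_c5d8fa_lc

open Finset Pool.Agent.H.MP_f3ccbb_lc

noncomputable def rr (Λ : Type) [Fintype Λ] : ℝ := 1 - 1 / (2 * Fintype.card Λ)
noncomputable def cc (Λ : Type) [Fintype Λ] : ℝ := 2 * (Fintype.card Λ) ^ 2

section part
variable {G Λ : Type} [Fintype G] [DecidableEq G] [Fintype Λ] [DecidableEq Λ] [Nonempty Λ]

noncomputable def uu (κ : G → Finset Λ) : ℝ := (rr Λ)⁻¹ ^ (∑ b, (κ b).card)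

lemma Q_ge : (1 : ℝ) ≤ Fintype.card Λ := by exact_mod_cast Fintype.card_pos

lemma rr_pos : 0 < rr Λ := by
  have h := Q_ge (Λ := Λ)
  have : 1 / (2 * (Fintype.card Λ : ℝ)) ≤ 1 / 2 := one_div_le_one_div_of_le (by norm_num) (by linarith)
  unfold rr; linarith

lemma rr_le : rr Λ ≤ 1 := by
  have h := Q_ge (Λ := Λ)
  have : 0 ≤ 1 / (2 * (Fintype.card Λ : ℝ)) := by positivity
  unfold rr; linarith

lemma ss_ge : 1 ≤ (rr Λ)⁻¹ := (one_le_inv₀ rr_pos).2 rr_le

lemma cc_ge : 1 ≤ cc Λ := by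
  have h := Q_ge (Λ := Λ)
  unfold cc; nlinarith

lemma cc_eq : cc Λ * rr Λ + Fintype.card Λ = cc Λ := by
  have h := Q_ge (Λ := Λ)
  unfold cc rr
  field_simp
  ring

lemma uu_ge (κ : G → Finset Λ) : 1 ≤ uu κ := one_le_pow₀ ss_ge

lemma uu_mono {κ κ' : G → Finset Λ} (h : ∀ b, κ' b ⊆ κ b) : uu κ' ≤ uu κ :=
  pow_le_pow_right₀ ss_ge (sum_le_sum fun b _ => card_le_card (h b))

lemma uu_drop {κ κ' : G → Finset Λ} (h : ∀ b, κ' b ⊆ κ b) (hne : κ' ≠ κ) : uu κ' ≤ rr Λ * uu κ := by
  obtain ⟨b, hb⟩ := Function.ne_iff.1 hne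
  have h1 : ∑ b, (κ' b).card < ∑ b, (κ b).card :=
    sum_lt_sum (fun b _ => card_le_card (h b)) ⟨b, mem_univ b, card_lt_card ⟨h b, fun h' =>
      hb (Subset.antisymm (h b) h')⟩⟩
  have h2 : (rr Λ)⁻¹ ^ (∑ b, (κ' b).card + 1) ≤ uu κ := pow_le_pow_right₀ ss_ge h1
  have h3 := rr_pos (Λ := Λ)
  calc uu κ' = rr Λ * (rr Λ)⁻¹ ^ (∑ b, (κ' b).card + 1) := by
        unfold uu; rw [pow_succ]; field_simp
    _ ≤ _ := mul_le_mul_of_nonneg_left h2 h3.le

lemma uu_univ : uu (fun _ : G => (univ : Finset Λ)) ≤ 2 ^ Fintype.card G := by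
  have h := Q_ge (Λ := Λ)
  have h1 : (1 : ℝ) / 2 ≤ rr Λ ^ Fintype.card Λ := by
    have h2 := one_add_mul_le_pow (a := -(1 / (2 * (Fintype.card Λ : ℝ)))) (by
      have : 1 / (2 * (Fintype.card Λ : ℝ)) ≤ 1 / 2 :=
        one_div_le_one_div_of_le (by norm_num) (by linarith)
      linarith) (Fintype.card Λ)
    have h3 : (Fintype.card Λ : ℝ) * -(1 / (2 * (Fintype.card Λ : ℝ))) = -(1 / 2) := by field_simp
    rw [h3] at h2
    unfold rr
    rw [sub_eq_add_neg]
    linarith
  unfold uu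
  simp only [card_univ, sum_const, smul_eq_mul]
  rw [mul_comm, pow_mul]
  refine pow_le_pow_left₀ (pow_nonneg (inv_nonneg.2 rr_pos.le) _) ?_ _
  rw [inv_pow, inv_le_comm₀ (pow_pos rr_pos _) (by norm_num)]
  simpa using h1

open Classical in
noncomputable def cut (κ : G → Finset Λ) (b : G) (p : Λ → Prop) : G → Finset Λ :=
  Function.update κ b ((κ b).filter p)

lemma cut_sub (κ : G → Finset Λ) (b : G) (p : Λ → Prop) (b' : G) : cut κ b p b' ⊆ κ b' := by
  classical
  unfold cut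
  by_cases h : b' = b
  · subst h; rw [Function.update_self]; exact filter_subset _ _
  · rw [Function.update_of_ne h]

lemma mem_cut (κ : G → Finset Λ) (b : G) (p : Λ → Prop) (β : G → Λ) :
    β ∈ Fintype.piFinset (cut κ b p) ↔ β ∈ Fintype.piFinset κ ∧ p (β b) := by
  classical
  simp only [Fintype.mem_piFinset]
  constructor
  · intro h
    refine ⟨fun b' => cut_sub κ b p b' (h b'), ?_⟩
    have := h b
    unfold cut at this
    rw [Function.update_self, mem_filter] at this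
    exact this.2
  · rintro ⟨h1, h2⟩ b'
    unfold cut
    by_cases h : b' = b
    · subst h; rw [Function.update_self, mem_filter]; exact ⟨h1 _, h2⟩
    · rw [Function.update_of_ne h]; exact h1 _

lemma sum_cut (κ : G → Finset Λ) (b : G) (p : Λ → Prop) (ψ : (G → Λ) → ℝ) :
    ∑ β ∈ Fintype.piFinset κ, ψ β = ∑ β ∈ Fintype.piFinset (cut κ b p), ψ β
      + ∑ l, ∑ β ∈ Fintype.piFinset (cut κ b (fun l' => ¬ p l' ∧ l' = l)), ψ β := by
  classical
  have e : ∀ q : Λ → Prop, ∑ β ∈ Fintype.piFinset (cut κ b q), ψ β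
      = ∑ β ∈ Fintype.piFinset κ, if q (β b) then ψ β else 0 := by
    intro q
    rw [← sum_filter]
    refine sum_congr ?_ fun _ _ => rfl
    ext β
    rw [mem_cut, mem_filter]
  simp only [e]
  rw [sum_comm, ← sum_add_distrib]
  refine sum_congr rfl fun β _ => ?_
  by_cases h : p (β b) <;> simp [h]

/-- a partition of every knowledge state into states on which `R` holds, at cost `cc` -/
def Part (R : (G → Λ) → (G → Λ) → Prop) : Prop :=
  ∀ (κ : G → Finset Λ) (ψ : (G → Λ) → ℝ) (a : ℝ), 0 ≤ a →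
    (∀ κ' : G → Finset Λ, (∀ b, κ' b ⊆ κ b) →
      (∀ β ∈ Fintype.piFinset κ', ∀ β' ∈ Fintype.piFinset κ', R β β') →
      ∑ β ∈ Fintype.piFinset κ', ψ β ≤ a * uu κ') →
    ∑ β ∈ Fintype.piFinset κ, ψ β ≤ a * cc Λ * uu κ

lemma part_of (R : (G → Λ) → (G → Λ) → Prop) (M : ℕ) (pass : ℕ → (G → Λ) → Prop)
    (hstop : ∀ m < M, ∃ b, (∀ β β', β b = β' b → pass m β → pass m β') ∧
      ∀ β β', β b = β' b → (∀ j < m, pass j β) → (∀ j < m, pass j β') → ¬ pass m β → R β β')
    (hend : ∀ β β', (∀ j < M, pass j β) → (∀ j < M, pass j β') → R β β') : Part R := by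
  intro κ0 ψ a ha H
  have key : ∀ d m, m + d = M → ∀ κ : G → Finset Λ, (∀ b, κ b ⊆ κ0 b) →
      (∀ β ∈ Fintype.piFinset κ, ∀ j < m, pass j β) →
      ∑ β ∈ Fintype.piFinset κ, ψ β ≤ a * cc Λ * uu κ := by
    intro d
    induction d with
    | zero =>
      intro m hm κ hκ hp
      obtain rfl : m = M := hm
      refine (H κ hκ fun β hβ β' hβ' => hend β β' (hp β hβ) (hp β' hβ')).trans ?_
      have h1 := uu_ge κ
      have h2 := cc_ge (Λ := Λ)
      have : 0 ≤ a * uu κ := by positivity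
      nlinarith
    | succ d ih =>
      intro m hm κ hκ hp
      obtain ⟨b, h1, h2⟩ := hstop m (by omega)
      have hI := ih (m + 1) (by omega) (cut κ b (fun l => pass m (fun _ => l)))
        (fun b' => (cut_sub _ _ _ b').trans (hκ b')) (by
          intro β hβ j hj
          rw [mem_cut] at hβ
          rcases Nat.lt_succ_iff_lt_or_eq.1 hj with h | rfl
          · exact hp β hβ.1 j h
          · exact h1 (fun _ => β b) β rfl hβ.2)
      by_cases he : cut κ b (fun l => pass m (fun _ => l)) = κ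
      · rwa [he] at hI
      · have h3 := uu_drop (cut_sub κ b (fun l => pass m (fun _ => l))) he
        have h4 : ∀ l ∈ (univ : Finset Λ), ∑ β ∈ Fintype.piFinset
            (cut κ b (fun l' => ¬ pass m (fun _ => l') ∧ l' = l)), ψ β ≤ a * uu κ := by
          intro l _
          refine (H _ (fun b' => (cut_sub _ _ _ b').trans (hκ b')) ?_).trans
            (mul_le_mul_of_nonneg_left (uu_mono (cut_sub _ _ _)) ha)
          intro β hβ β' hβ'
          rw [mem_cut] at hβ hβ'
          exact h2 β β' (hβ.2.2.trans hβ'.2.2.symm) (hp β hβ.1) (hp β' hβ'.1)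
            (fun h => hβ.2.1 (h1 β (fun _ => β b) rfl h))
        have h5 := sum_le_sum h4
        rw [sum_const, card_univ, nsmul_eq_mul] at h5
        rw [sum_cut κ b (fun l => pass m (fun _ => l))]
        have h6 := cc_ge (Λ := Λ)
        have h7 : a * cc Λ * uu (cut κ b (fun l => pass m (fun _ => l))) ≤ a * cc Λ * (rr Λ * uu κ) :=
          mul_le_mul_of_nonneg_left h3 (by positivity)
        have h8 : a * cc Λ * (rr Λ * uu κ) + Fintype.card Λ * (a * uu κ) = a * cc Λ * uu κ := by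
          have := cc_eq (Λ := Λ)
          linear_combination (a * uu κ) * this
        linarith
  exact key M 0 (by omega) κ0 (fun _ => Subset.rfl) (fun _ _ j hj => absurd hj (Nat.not_lt_zero j))

variable {X : Type} [Fintype X] [DecidableEq X]

open Classical in
lemma know (A : Alg X) (F : (G → Λ) → X → ℕ) (a : (G → Λ) → X → Prop) (bad : Finset X → Prop)
    (Bd : ℝ) (hB0 : 0 ≤ Bd)
    (hBd : ∀ C, bad C → ((univ.filter fun β => ∀ y ∈ C, a β y).card : ℝ) ≤ Bd)
    (hP : ∀ y, Part (fun β β' => F β y = F β' y ∧ (a β y ↔ a β' y))) (t : ℕ) :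
    ∀ (κ : G → Finset Λ) (x : X) (Y : Finset X), x ∈ Y →
      (∀ y ∈ Y, ∀ β ∈ Fintype.piFinset κ, ∀ β' ∈ Fintype.piFinset κ,
        F β y = F β' y ∧ (a β y ↔ a β' y)) →
      ∑ β ∈ Fintype.piFinset κ, Ev A (F β) t (fun s => ind (bad (s.2.filter (a β)))) (x, Y)
        ≤ Bd * cc Λ ^ t * uu κ := by
  have hc := cc_ge (Λ := Λ)
  induction t with
  | zero =>
    intro κ x Y _ h
    have h1 := uu_ge κ
    simp only [Ev, Function.iterate_zero, id, pow_zero, mul_one]
    by_cases hb : ∃ β ∈ Fintype.piFinset κ, bad (Y.filter (a β))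
    · obtain ⟨β0, h0, hb⟩ := hb
      have h2 := hBd _ hb
      have h3 : ∑ β ∈ Fintype.piFinset κ, ind (bad (Y.filter (a β))) ≤ (Fintype.piFinset κ).card := by
        have := sum_le_card_nsmul (Fintype.piFinset κ) (fun β => ind (bad (Y.filter (a β)))) 1
          (fun _ _ => ind_le_one _)
        simpa using this
      have h4 : ((Fintype.piFinset κ).card : ℝ)
          ≤ (univ.filter fun β => ∀ y ∈ Y.filter (a β0), a β y).card := by
        refine Nat.cast_le.2 (card_le_card fun β hβ => ?_)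
        rw [mem_filter]
        refine ⟨mem_univ _, fun y hy => ?_⟩
        rw [mem_filter] at hy
        exact (h y hy.1 β0 h0 β hβ).2.1 hy.2
      nlinarith
    · rw [sum_eq_zero fun β hβ => ind_neg fun h' => hb ⟨β, hβ, h'⟩]
      positivity
  | succ t ih =>
    intro κ x Y hx h
    have h1 := uu_ge κ
    rcases (Fintype.piFinset κ).eq_empty_or_nonempty with he | ⟨β0, h0⟩
    · rw [he, sum_empty]; positivity
    have e1 : ∀ β ∈ Fintype.piFinset κ,
        Ev A (F β) (t + 1) (fun s => ind (bad (s.2.filter (a β)))) (x, Y)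
        = ∑ y, (A.vary x (F β0 x) y).toReal * ∑ b, (A.sel x (F β0 x) y (F β y) b).toReal *
          Ev A (F β) t (fun s => ind (bad (s.2.filter (a β))))
            (if b = true then y else x, insert y Y) := by
      intro β hβ
      rw [Ev_succ, Step, (h x hx β0 h0 β hβ).1]
    rw [sum_congr rfl e1, ← ie_sum (ie_pmf (A.vary x (F β0 x)))]
    refine (ie_pmf _).le_const fun y => ?_
    rw [pow_succ, ← mul_assoc]
    refine hP y κ _ _ (by positivity) fun κ' hκ hy => ?_
    have h2 := uu_ge κ'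
    rcases (Fintype.piFinset κ').eq_empty_or_nonempty with he | ⟨β1, h1⟩
    · rw [he, sum_empty]; positivity
    rw [sum_congr rfl (fun β hβ => by rw [(hy β hβ β1 h1).1]),
      ← ie_sum (ie_pmf (A.sel x (F β0 x) y (F β1 y)))]
    refine (ie_pmf _).le_const fun b => ih κ' _ _ (by split_ifs <;> simp [hx]) ?_
    intro y' hy' β hβ β' hβ'
    rcases mem_insert.1 hy' with rfl | hy'
    · exact hy β hβ β' hβ'
    · exact h y' hy' β (Fintype.piFinset_subset _ _ hκ hβ) β' (Fintype.piFinset_subset _ _ hκ hβ')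

open Classical in
lemma know_start (A : Alg X) (F : (G → Λ) → X → ℕ) (a : (G → Λ) → X → Prop) (bad : Finset X → Prop)
    (Bd : ℝ) (hB0 : 0 ≤ Bd)
    (hBd : ∀ C, bad C → ((univ.filter fun β => ∀ y ∈ C, a β y).card : ℝ) ≤ Bd)
    (hP : ∀ y, Part (fun β β' => F β y = F β' y ∧ (a β y ↔ a β' y))) (t : ℕ) (x : X) :
    ∑ β, Ev A (F β) t (fun s => ind (bad (s.2.filter (a β)))) (x, {x})
      ≤ Bd * cc Λ ^ (t + 1) * 2 ^ Fintype.card G := by
  have hc := cc_ge (Λ := Λ)
  have h := hP x (fun _ => univ)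
    (fun β => Ev A (F β) t (fun s => ind (bad (s.2.filter (a β)))) (x, {x})) (Bd * cc Λ ^ t)
    (by positivity) (fun κ' _ hy => know A F a bad Bd hB0 hBd hP t κ' x {x} (mem_singleton_self x)
      (fun y hy' => by rw [mem_singleton.1 hy']; exact hy))
  rw [Fintype.piFinset_univ] at h
  rw [pow_succ, ← mul_assoc]
  exact h.trans (mul_le_mul_of_nonneg_left uu_univ (by positivity))

end part

end Pool.Agent.H.MP_c5d8fa_lc
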