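import Pool.Agent.H.MP_c5d8fa_lc.B

set_option autoImplicit false

namespace Pool.Agent.H.MP_c5d8fa_lc

open Finset Pool.Agent.H.MP_f3ccbb_lc

section gen
variable {P : Type} [Fintype P]

open Classical in
noncomputable def ft (key : P → ℕ) (zz : P → Bool) (M : ℕ) (y : P → Bool) : ℕ :=
  (univ.filter fun p => key p < M ∧ ∀ p', key p' ≤ key p → y p' = zz p').card

def Ag (key : P → ℕ) (zz : P → Bool) (M : ℕ) (y : P → Bool) : Prop := ∀ p, key p < M → y p = zz p

noncomputable def cnt (key : P → ℕ) (m : ℕ) : ℕ := (univ.filter fun p => key p < m).card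

lemma ft_of_fail {key : P → ℕ} {zz y : P → Bool} {M m : ℕ} (hm : m ≤ M) (h1 : Ag key zz m y)
    (h2 : m = M ∨ ∃ p, key p = m ∧ y p ≠ zz p) : ft key zz M y = cnt key m := by
  unfold ft cnt
  congr 1
  ext p
  simp only [mem_filter, mem_univ, true_and]
  constructor
  · rintro ⟨h3, h4⟩
    by_contra h5
    rcases h2 with rfl | ⟨p0, h6, h7⟩
    · exact h5 h3
    · exact h7 (h4 p0 (by omega))
  · intro h
    exact ⟨by omega, fun p' hp' => h1 p' (by omega)⟩

lemma ft_congr {key key' : P → ℕ} {zz zz' : P → Bool} {M : ℕ}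
    (h : ∀ p, (key p < M ∨ key' p < M) → key p = key' p ∧ zz p = zz' p) :
    ft key zz M = ft key' zz' M ∧ Ag key zz M = Ag key' zz' M := by
  constructor
  · funext y
    unfold ft
    congr 1
    ext p
    simp only [mem_filter, mem_univ, true_and]
    constructor
    · rintro ⟨h1, h2⟩
      have h3 := (h p (Or.inl h1)).1
      refine ⟨by omega, fun p' hp' => ?_⟩
      have h4 := h p' (Or.inr (by omega))
      rw [← h4.2]
      exact h2 p' (by omega)
    · rintro ⟨h1, h2⟩
      have h3 := (h p (Or.inr h1)).1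
      refine ⟨by omega, fun p' hp' => ?_⟩
      have h4 := h p' (Or.inl (by omega))
      rw [h4.2]
      exact h2 p' (by omega)
  · funext y
    refine propext ⟨fun h1 p hp => ?_, fun h1 p hp => ?_⟩
    · have h4 := h p (Or.inr hp)
      rw [← h4.2]
      exact h1 p (by omega)
    · have h4 := h p (Or.inl hp)
      rw [h4.2]
      exact h1 p (by omega)

lemma ft_off {key : P → ℕ} {zz y : P → Bool} {M M' : ℕ} (hM : M ≤ M') (h : ¬ Ag key zz (M + 1) y) :
    ft key zz M' y = ft key zz M y := by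
  unfold ft
  congr 1
  ext p
  simp only [mem_filter, mem_univ, true_and]
  unfold Ag at h
  push Not at h
  obtain ⟨p0, h1, h2⟩ := h
  constructor
  · rintro ⟨_, h4⟩
    refine ⟨?_, h4⟩
    by_contra h5
    exact h2 (h4 p0 (by omega))
  · rintro ⟨h3, h4⟩
    exact ⟨by omega, h4⟩

lemma Ag_anti {key : P → ℕ} {zz y : P → Bool} {M M' : ℕ} (hM : M ≤ M') (h : Ag key zz M' y) :
    Ag key zz M y := fun p hp => h p (by omega)

end gen

abbrev Pos (g B r : ℕ) := (Fin g × Fin B) ⊕ Fin r
abbrev Cf (B : ℕ) := Fin B × (Fin B → Bool)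

variable {g B r : ℕ}

def key (π : Equiv.Perm (Fin g)) (β : Fin g → Cf B) : Pos g B r → ℕ
  | Sum.inl q => if q.2 = (β q.1).1 then r + g * B + π.symm q.1 else r + q.1 * B + q.2
  | Sum.inr j => j

def zz (β : Fin g → Cf B) : Pos g B r → Bool
  | Sum.inl q => (β q.1).2 q.2
  | Sum.inr _ => false

lemma blk_le {b b' : ℕ} (h : b < b') : b * B + B ≤ b' * B := by
  have := Nat.mul_le_mul_right B (Nat.succ_le_of_lt h)
  rwa [Nat.succ_mul] at this

lemma key_lt (π : Equiv.Perm (Fin g)) (β : Fin g → Cf B) (p : Pos g B r) :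
    key π β p < r + g * B + g := by
  rcases p with ⟨b, i⟩ | j
  · have h1 := blk_le (B := B) b.2
    have h2 := (π.symm b).2
    have h3 := i.2
    simp only [key]
    split_ifs <;> omega
  · have := j.2
    simp only [key]
    omega

lemma key_inj (π : Equiv.Perm (Fin g)) (β : Fin g → Cf B) :
    Function.Injective (key (r := r) π β) := by
  rintro (⟨b, i⟩ | j) (⟨b', i'⟩ | j') h <;> simp only [key] at h
  · have h1 := blk_le (B := B) b.2
    have h2 := blk_le (B := B) b'.2
    have h3 := i.2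
    have h4 := i'.2
    split_ifs at h with c1 c2 c2
    · obtain rfl : b = b' := π.symm.injective (Fin.ext (by omega))
      rw [c1, c2]
    · omega
    · omega
    · rcases lt_trichotomy (b : ℕ) b' with h5 | h5 | h5
      · have := blk_le (B := B) h5
        omega
      · obtain rfl : b = b' := Fin.ext h5
        obtain rfl : i = i' := Fin.ext (by omega)
        rfl
      · have := blk_le (B := B) h5
        omega
  · have := j'.2
    split_ifs at h <;> omega
  · have := j.2
    split_ifs at h <;> omega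
  · rw [Fin.ext h]

lemma loc (hg : 0 < g) (π : Equiv.Perm (Fin g)) (m : ℕ) : ∃ b : Fin g, ∀ b' : Fin g, b' ≠ b →
    (m < r + b' * B ∨ r + b' * B + B ≤ m) ∧ r + g * B + π.symm b' ≠ m := by
  by_cases h : ∃ b : Fin g, ¬ ((m < r + b * B ∨ r + b * B + B ≤ m) ∧ r + g * B + π.symm b ≠ m)
  · obtain ⟨b, hb⟩ := h
    refine ⟨b, fun b' hne => ?_⟩
    by_contra hb'
    have h1 := blk_le (B := B) b.2
    have h2 := blk_le (B := B) b'.2
    have h3 : (π.symm b' : ℕ) ≠ π.symm b := fun h => hne (π.symm.injective (Fin.ext h))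
    rcases lt_trichotomy (b : ℕ) b' with h5 | h5 | h5
    · have := blk_le (B := B) h5
      omega
    · exact hne (Fin.ext h5.symm)
    · have := blk_le (B := B) h5
      omega
  · push Not at h
    exact ⟨⟨0, hg⟩, fun b' _ => h b'⟩

lemma cnt_eq (π : Equiv.Perm (Fin g)) (β β' : Fin g → Cf B) (m : ℕ)
    (h : ∀ b : Fin g, β b = β' b ∨ m < r + b * B ∨ r + b * B + B ≤ m) :
    cnt (key (r := r) π β) m = cnt (key (r := r) π β') m := by
  unfold cnt
  refine card_equiv (Equiv.sumCongr (Equiv.prodCongrRight fun b => Equiv.swap (β b).1 (β' b).1)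
    (Equiv.refl _)) ?_
  rintro (⟨b, i⟩ | j)
  · simp only [mem_filter, mem_univ, true_and, Equiv.sumCongr_apply, Sum.map_inl,
      Equiv.prodCongrRight_apply, key]
    by_cases hi : i = (β b).1
    · rw [if_pos hi, if_pos (by rw [hi, Equiv.swap_apply_left])]
    · rw [if_neg hi, if_neg (fun h' => hi ((Equiv.swap (β b).1 (β' b).1).injective
        (h'.trans (Equiv.swap_apply_left _ _).symm)))]
      have h1 := i.2
      have h2 := (Equiv.swap (β b).1 (β' b).1 i).2
      rcases h b with h3 | h3 | h3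
      · rw [h3, Equiv.swap_self]; rfl
      · omega
      · omega
  · simp [key]

lemma part_inst [Nonempty (Fin B)] (hg : 0 < g) (π : Equiv.Perm (Fin g)) (k : ℕ)
    (y : Pos g B r → Bool) :
    Part (fun β β' : Fin g → Cf B => ft (key π β) (zz β) (r + g * B + k) y
      = ft (key π β') (zz β') (r + g * B + k) y ∧
      (Ag (key π β) (zz β) (r + g * B + k) y ↔ Ag (key π β') (zz β') (r + g * B + k) y)) := by
  have hA : ∀ (β : Fin g → Cf B) m, (∀ j < m, ∀ p, key π β p = j → y p = zz β p) →
      Ag (key π β) (zz β) m y := fun β m h p hp => h _ hp p rfl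
  refine part_of _ (r + g * B + k) (fun m β => ∀ p, key π β p = m → y p = zz β p) ?_ ?_
  · intro m hm
    obtain ⟨b, hb⟩ := loc (r := r) (B := B) hg π m
    have l1 : ∀ β β' : Fin g → Cf B, β b = β' b → (∀ p, key π β p = m → y p = zz β p) →
        ∀ p, key π β' p = m → y p = zz β' p := by
      rintro β β' h h1 (⟨b', i⟩ | j) hp
      · by_cases hbb : b' = b
        · subst hbb
          have := h1 (Sum.inl (b', i)) (by simpa only [key, h] using hp)
          simpa only [zz, h] using this
        · have h2 := hb b' hbb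
          have h3 := i.2
          simp only [key] at hp
          split_ifs at hp <;> omega
      · exact h1 (Sum.inr j) hp
    refine ⟨b, l1, fun β β' h h1 h2 h3 => ?_⟩
    have h4 : ¬ ∀ p, key π β' p = m → y p = zz β' p := fun h' => h3 (l1 β' β h.symm h')
    push Not at h3 h4
    refine ⟨?_, iff_of_false ?_ ?_⟩
    · rw [ft_of_fail hm.le (hA β m h1) (Or.inr h3), ft_of_fail hm.le (hA β' m h2) (Or.inr h4)]
      refine cnt_eq π β β' m fun b' => ?_
      by_cases hbb : b' = b
      · exact Or.inl (hbb ▸ h)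
      · exact Or.inr (hb b' hbb).1
    · obtain ⟨p, h5, h6⟩ := h3
      exact fun h' => h6 (h' p (by omega))
    · obtain ⟨p, h5, h6⟩ := h4
      exact fun h' => h6 (h' p (by omega))
  · intro β β' h1 h2
    refine ⟨?_, iff_of_true (hA β _ h1) (hA β' _ h2)⟩
    rw [ft_of_fail le_rfl (hA β _ h1) (Or.inl rfl), ft_of_fail le_rfl (hA β' _ h2) (Or.inl rfl)]
    refine cnt_eq π β β' _ fun b' => Or.inr (Or.inr ?_)
    have := blk_le (B := B) b'.2
    omega

variable {X : Type} [Fintype X] [DecidableEq X] (ρ : X → Pos g B r → Bool)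

open Classical in
noncomputable def DD (C : Finset X) : Finset (Fin g) :=
  univ.filter fun b => ∃ y ∈ C, ∃ y' ∈ C, ∃ i, ρ y (Sum.inl (b, i)) ≠ ρ y' (Sum.inl (b, i))

noncomputable def Fk (π : Equiv.Perm (Fin g)) (β : Fin g → Cf B) (k : ℕ) (y : X) : ℕ :=
  ft (key π β) (zz β) (r + g * B + k) (ρ y)

def ak (π : Equiv.Perm (Fin g)) (β : Fin g → Cf B) (k : ℕ) (y : X) : Prop :=
  Ag (key π β) (zz β) (r + g * B + k) (ρ y)

lemma DD_mono {C C' : Finset X} (h : C ⊆ C') : DD ρ C ⊆ DD ρ C' := by
  intro b hb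
  simp only [DD, mem_filter, mem_univ, true_and] at hb ⊢
  obtain ⟨y, h1, y', h2, h3⟩ := hb
  exact ⟨y, h h1, y', h h2, h3⟩

open Classical in
lemma bad_count (hB : 0 < B) (π : Equiv.Perm (Fin g)) (k w : ℕ) (C : Finset X)
    (hC : w < (DD ρ C).card) :
    ((univ.filter fun β => ∀ y ∈ C, ak ρ π β k y).card : ℝ) ≤ (2 * B) ^ g / B ^ w := by
  obtain ⟨y0, hy0⟩ : ∃ y0, y0 ∈ C := by
    obtain ⟨b, hb⟩ := card_pos.1 (lt_of_le_of_lt (Nat.zero_le _) hC)
    simp only [DD, mem_filter] at hb
    obtain ⟨_, y, hy, _⟩ := hb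
    exact ⟨y, hy⟩
  set S : Fin g → Finset (Cf B) := fun b =>
    univ.filter fun l => ∀ y ∈ C, ∀ i, i ≠ l.1 → ρ y (Sum.inl (b, i)) = l.2 i with hS
  have h1 : (univ.filter fun β => ∀ y ∈ C, ak ρ π β k y) ⊆ Fintype.piFinset S := by
    intro β hβ
    rw [mem_filter] at hβ
    rw [Fintype.mem_piFinset]
    intro b
    simp only [hS, mem_filter, mem_univ, true_and]
    intro y hy i hi
    refine hβ.2 y hy (Sum.inl (b, i)) ?_
    have h1 := blk_le (B := B) b.2
    have h3 := i.2
    simp only [key, if_neg hi]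
    omega
  have inj : ∀ b, ∀ l ∈ S b, ∀ l' ∈ S b, l.1 = l'.1 → l.2 l.1 = l'.2 l'.1 → l = l' := by
    intro b l hl l' hl' e1 e2
    simp only [hS, mem_filter, mem_univ, true_and] at hl hl'
    refine Prod.ext e1 (funext fun i => ?_)
    by_cases hi : i = l.1
    · rw [hi, e2, e1]
    · rw [← hl y0 hy0 i hi, ← hl' y0 hy0 i (e1 ▸ hi)]
  have h2 : ∀ b, (S b).card * (if b ∈ DD ρ C then B else 1) ≤ 2 * B := by
    intro b
    split_ifs with hb
    · refine Nat.mul_le_mul_right _ ?_
      simp only [DD, mem_filter, mem_univ, true_and] at hb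
      obtain ⟨y, h3, y', h4, i, h5⟩ := hb
      have h6 : ∀ l ∈ S b, l.1 = i := by
        intro l hl
        simp only [hS, mem_filter, mem_univ, true_and] at hl
        by_contra h7
        exact h5 ((hl y h3 i (Ne.symm h7)).trans (hl y' h4 i (Ne.symm h7)).symm)
      have := card_le_card_of_injOn (s := S b) (t := (univ : Finset Bool)) (fun l => l.2 l.1)
        (fun _ _ => mem_coe.2 (mem_univ _))
        (fun l hl l' hl' e => inj b l hl l' hl' ((h6 l hl).trans (h6 l' hl').symm) e)
      simpa using this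
    · have := card_le_card_of_injOn (s := S b) (t := (univ : Finset (Bool × Fin B)))
        (fun l => (l.2 l.1, l.1)) (fun _ _ => mem_coe.2 (mem_univ _))
        (fun l hl l' hl' e => inj b l hl l' hl' (congrArg Prod.snd e) (congrArg Prod.fst e))
      simpa using this
  have h3 := prod_le_prod' (s := univ) (fun b _ => h2 b)
  rw [prod_mul_distrib, prod_ite_mem, univ_inter, prod_const, prod_const, card_univ,
    Fintype.card_fin, ← Fintype.card_piFinset] at h3
  have h4 : B ^ w ≤ B ^ (DD ρ C).card := Nat.pow_le_pow_right hB hC.le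
  rw [le_div_iff₀ (by positivity)]
  exact_mod_cast (Nat.mul_le_mul (card_le_card h1) h4).trans h3

end Pool.Agent.H.MP_c5d8fa_lc
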