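import Pool.Agent.H.MP_c5d8fa_lc.C

set_option autoImplicit false

namespace Pool.Agent.H.MP_c5d8fa_lc

open Finset Pool.Agent.H.MP_f3ccbb_lc Classical

variable {g B r : ℕ} {X : Type} [Fintype X] [DecidableEq X] (ρ : X → Pos g B r → Bool) (A : Alg X)

def fl (b0 : Fin g) (β : Fin g → Cf B) : Fin g → Cf B :=
  fun b => ((β b).1, fun i => if b = b0 ∧ i = (β b).1 then !(β b).2 i else (β b).2 i)

lemma fl_invol (b0 : Fin g) : Function.Involutive (fl (B := B) b0) := by
  intro β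
  funext b
  refine Prod.ext rfl (funext fun i => ?_)
  simp only [fl]
  split_ifs <;> simp

lemma key_fl (π : Equiv.Perm (Fin g)) (b0 : Fin g) (β : Fin g → Cf B) :
    key (r := r) π (fl b0 β) = key π β := by
  funext p
  rcases p with q | j <;> rfl

lemma fl_congr (π : Equiv.Perm (Fin g)) (k : Fin g) (β : Fin g → Cf B) :
    Fk ρ π (fl (π k) β) k = Fk ρ π β k ∧ ak ρ π (fl (π k) β) k = ak ρ π β k := by
  have h := ft_congr (key := key (r := r) π (fl (π k) β)) (key' := key π β) (zz := zz (fl (π k) β))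
    (zz' := zz β) (M := r + g * B + k) (by
      rw [key_fl]
      rintro (⟨b, i⟩ | j) hp
      · refine ⟨rfl, ?_⟩
        simp only [zz, fl]
        rw [if_neg]
        rintro ⟨h1, h2⟩
        simp [key, h1, h2] at hp
      · exact ⟨rfl, rfl⟩)
  constructor <;> funext y
  · exact congrFun h.1 _
  · exact congrFun h.2 _

lemma swap_congr (π : Equiv.Perm (Fin g)) (k k' : Fin g) (hk : k ≤ k') (β : Fin g → Cf B) :
    Fk ρ (π * Equiv.swap k k') β k = Fk ρ π β k ∧ ak ρ (π * Equiv.swap k k') β k = ak ρ π β k := by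
  have h := ft_congr (key := key (r := r) (π * Equiv.swap k k') β) (key' := key π β) (zz := zz β)
    (zz' := zz β) (M := r + g * B + k) (by
      rintro (⟨b, i⟩ | j) hp
      · refine ⟨?_, rfl⟩
        have e : (π * Equiv.swap k k').symm b = Equiv.swap k k' (π.symm b) := by
          rw [Equiv.symm_apply_eq]; simp
        simp only [key, e] at hp ⊢
        rw [Fin.le_def] at hk
        split_ifs at hp ⊢
        · rw [Equiv.swap_apply_def] at hp ⊢
          split_ifs at hp ⊢ with c1 c2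
          · rw [c1] at hp; omega
          · rw [c2] at hp; omega
          · rfl
        · rfl
      · exact ⟨rfl, rfl⟩)
  constructor <;> funext y
  · exact congrFun h.1 _
  · exact congrFun h.2 _

/-- level `k` was reached and level `k + 1` was not -/
def Ek (π : Equiv.Perm (Fin g)) (β : Fin g → Cf B) (k : ℕ) (Y : Finset X) : Prop :=
  (∀ y ∈ Y, ¬ ak ρ π β (k + 1) y) ∧ (Y.filter (ak ρ π β k)).Nonempty

lemma flip_pt (π : Equiv.Perm (Fin g)) (k : Fin g) (β : Fin g → Cf B) (Y : Finset X)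
    (h1 : (Y.filter (ak ρ π β k)).Nonempty) (h2 : π k ∉ DD ρ (Y.filter (ak ρ π β k))) :
    Ek ρ π β k Y ∨ Ek ρ π (fl (π k) β) k Y := by
  by_contra hc
  unfold Ek at hc
  rw [(fl_congr ρ π k β).2] at hc
  push Not at hc
  obtain ⟨c1, c2⟩ := hc
  have d1 : ∃ y ∈ Y, ak ρ π β (k + 1) y := by
    by_contra h
    push Not at h
    exact h1.ne_empty (c1 h)
  have d2 : ∃ y ∈ Y, ak ρ π (fl (π k) β) (k + 1) y := by
    by_contra h
    push Not at h
    exact h1.ne_empty (c2 h)
  obtain ⟨y, hy, e1⟩ := d1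
  obtain ⟨y', hy', e2⟩ := d2
  apply h2
  simp only [DD, mem_filter, mem_univ, true_and]
  refine ⟨y, ⟨hy, Ag_anti (by omega) e1⟩, y', ⟨hy', ?_⟩, (β (π k)).1, ?_⟩
  · rw [← (fl_congr ρ π k β).2]
    exact Ag_anti (by omega) e2
  · rw [e1 _ (by simp [key]), e2 _ (by rw [key_fl]; simp [key])]
    simp [zz, fl]

lemma flip_sum (π : Equiv.Perm (Fin g)) (k : Fin g) (t : ℕ) :
    ∑ β, EE A (Fk ρ π β k) t (fun s => ind ((s.2.filter (ak ρ π β k)).Nonempty ∧
      π k ∉ DD ρ (s.2.filter (ak ρ π β k))))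
      ≤ 2 * ∑ β, EE A (Fk ρ π β k) t (fun s => ind (Ek ρ π β k s.2)) := by
  have e := Equiv.sum_comp (fl_invol (B := B) (π k)).toPerm
    (fun β => EE A (Fk ρ π β k) t (fun s => ind (Ek ρ π β k s.2)))
  rw [two_mul]
  nth_rewrite 2 [← e]
  rw [← sum_add_distrib]
  refine sum_le_sum fun β _ => ?_
  rw [Function.Involutive.coe_toPerm, (fl_congr ρ π k β).1, ← ie_add (ie_EE A _ t)]
  refine ie_mono (ie_EE A _ t) fun s => ?_
  have n1 := ind_nonneg (Ek ρ π β k s.2)
  have n2 := ind_nonneg (Ek ρ π (fl (π k) β) k s.2)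
  by_cases h : (s.2.filter (ak ρ π β k)).Nonempty ∧ π k ∉ DD ρ (s.2.filter (ak ρ π β k))
  · rw [ind_pos h]
    rcases flip_pt ρ π k β s.2 h.1 h.2 with h' | h' <;> rw [ind_pos h'] <;> linarith
  · rw [ind_neg h]; linarith

lemma swap_sum (k k' : Fin g) (hk : k ≤ k') (t : ℕ) :
    ∑ π : Equiv.Perm (Fin g), ∑ β, EE A (Fk ρ π β k) t
      (fun s => ind ((s.2.filter (ak ρ π β k)).Nonempty ∧ π k' ∉ DD ρ (s.2.filter (ak ρ π β k))))
    = ∑ π : Equiv.Perm (Fin g), ∑ β, EE A (Fk ρ π β k) t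
      (fun s => ind ((s.2.filter (ak ρ π β k)).Nonempty ∧ π k ∉ DD ρ (s.2.filter (ak ρ π β k)))) := by
  rw [← Equiv.sum_comp (Equiv.mulRight (Equiv.swap k k')) (fun π : Equiv.Perm (Fin g) =>
    ∑ β, EE A (Fk ρ π β k) t
      (fun s => ind ((s.2.filter (ak ρ π β k)).Nonempty ∧ π k ∉ DD ρ (s.2.filter (ak ρ π β k)))))]
  refine sum_congr rfl fun π _ => sum_congr rfl fun β _ => ?_
  rw [Equiv.coe_mulRight]
  simp only [(swap_congr ρ π k k' hk β).1, (swap_congr ρ π k k' hk β).2, Equiv.Perm.mul_apply,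
    Equiv.swap_apply_left]

lemma sym_sum (h : ℕ) (hh : 0 < h) (hg : g = 4 * h) (k : ℕ) (hk : k < 2 * h) (t : ℕ) :
    ∑ π : Equiv.Perm (Fin g), ∑ β, EE A (Fk ρ π β k) t
      (fun s => ind ((s.2.filter (ak ρ π β k)).Nonempty ∧
        ¬ h < (DD ρ (s.2.filter (ak ρ π β k))).card))
    ≤ 4 * ∑ π : Equiv.Perm (Fin g), ∑ β, EE A (Fk ρ π β k) t (fun s => ind (Ek ρ π β k s.2)) := by
  set k0 : Fin g := ⟨k, by omega⟩ with hk0
  set a : Fin g := ⟨2 * h, by omega⟩ with ha
  have hS : (Ici a).card = 2 * h := by rw [Fin.card_Ici]; simp only [ha]; omega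
  have s1 := sum_congr (rfl : Ici a = Ici a) (fun k' hk' => swap_sum ρ A k0 k'
    (le_trans (by rw [Fin.le_def]; exact hk.le) (mem_Ici.1 hk')) t)
  rw [sum_const, hS, nsmul_eq_mul] at s1
  have s2 := sum_le_sum (s := univ) (fun π _ => flip_sum ρ A π k0 t)
  rw [← mul_sum] at s2
  have s3 : h * ∑ π : Equiv.Perm (Fin g), ∑ β, EE A (Fk ρ π β k) t
      (fun s => ind ((s.2.filter (ak ρ π β k)).Nonempty ∧
        ¬ h < (DD ρ (s.2.filter (ak ρ π β k))).card))
      ≤ ∑ k' ∈ Ici a, ∑ π : Equiv.Perm (Fin g), ∑ β, EE A (Fk ρ π β k) t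
      (fun s => ind ((s.2.filter (ak ρ π β k)).Nonempty ∧
        π k' ∉ DD ρ (s.2.filter (ak ρ π β k)))) := by
    rw [sum_comm (s := Ici a), mul_sum]
    refine sum_le_sum fun π _ => ?_
    rw [sum_comm (s := Ici a), mul_sum]
    refine sum_le_sum fun β _ => ?_
    rw [← ie_sum (ie_EE A _ t), ← ie_mul (ie_EE A _ t)]
    refine ie_mono (ie_EE A _ t) fun s => ?_
    set C := s.2.filter (ak ρ π β k)
    by_cases hc : C.Nonempty ∧ ¬ h < (DD ρ C).card
    · rw [ind_pos hc, mul_one]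
      have c1 := card_filter_add_card_filter_not (s := Ici a) (fun k' => π k' ∈ DD ρ C)
      have c2 : ((Ici a).filter (fun k' => π k' ∈ DD ρ C)).card ≤ (DD ρ C).card :=
        card_le_card_of_injOn π (fun x hx => (mem_filter.1 hx).2) π.injective.injOn
      have c3 : ∑ k' ∈ Ici a, ind (C.Nonempty ∧ π k' ∉ DD ρ C)
          = ((Ici a).filter (fun k' => π k' ∉ DD ρ C)).card := by
        rw [card_filter]
        push_cast
        refine sum_congr rfl fun k' _ => ?_
        simp [ind, hc.1]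
      rw [c3]
      have := hc.2
      exact_mod_cast (by omega : h ≤ _)
    · rw [ind_neg hc, mul_zero]
      exact sum_nonneg fun _ _ => ind_nonneg _
  have hh' : (0 : ℝ) < h := by exact_mod_cast hh
  refine le_of_mul_le_mul_left ?_ hh'
  simp only [hk0] at s1 s2
  push_cast at s1
  nlinarith

lemma Ek_sum (π : Equiv.Perm (Fin g)) (β : Fin g → Cf B) (z : X) (hz : ρ z = zz β) (K : ℕ)
    (Y : Finset X) : ∑ k ∈ range K, ind (Ek ρ π β k Y) ≤ ind (z ∉ Y) := by
  by_cases h : ∃ k ∈ range K, Ek ρ π β k Y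
  · obtain ⟨k, hk, h⟩ := h
    have lt : ∀ k k', k < k' → Ek ρ π β k Y → ¬ Ek ρ π β k' Y := by
      rintro k k' hlt h1 ⟨_, y, hy⟩
      rw [mem_filter] at hy
      exact h1.1 y hy.1 (Ag_anti (by omega) hy.2)
    rw [sum_eq_single_of_mem k hk]
    · exact ind_mono fun _ hY => h.1 z hY (fun p _ => congrFun hz p)
    · intro k' _ hne
      refine ind_neg fun h' => ?_
      rcases lt_or_gt_of_ne hne with c | c
      · exact lt _ _ c h' h
      · exact lt _ _ c h h'
  · rw [sum_eq_zero fun k hk => ind_neg fun h' => h ⟨k, hk, h'⟩]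
    exact ind_nonneg _

lemma main [Nonempty (Fin B)] (h : ℕ) (hh : 0 < h) (hg : g = 4 * h) (T : ℕ)
    (hX : Fintype.card X = 2 ^ (r + g * B)) (zof : (Fin g → Cf B) → X) (hz : ∀ β, ρ (zof β) = zz β)
    (hnum : 4 * (2 * h + 1) * 2 ^ r * 4 ^ g * cc (Cf B) ^ (T + 1) ≤ B ^ h) :
    ∃ π β, (h : ℝ) * T / 8 ≤ ∑ t ∈ range (2 * h * T + T),
      EE A (Fk ρ π β g) t (fun s => ind (zof β ∉ s.2)) := by
  have hB : 0 < B := Fin.pos_iff_nonempty.2 inferInstance
  have off : ∀ π β k, k < 2 * h → ∀ y, ¬ ak ρ π β (k + 1) y → Fk ρ π β g y = Fk ρ π β k y :=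
    fun π β k hk y hy => ft_off (by omega) hy
  have hhT : (0 : ℝ) ≤ h * T := by positivity
  by_cases hc : ∃ π β, ∃ k < 2 * h, EE A (Fk ρ π β k) (2 * h * T)
      (fun s => ind (s.2.filter (ak ρ π β k)).Nonempty) < 1 / 2
  · obtain ⟨π, β, k, hk, hc⟩ := hc
    refine ⟨π, β, ?_⟩
    have h1 : ∀ t ∈ range (2 * h * T), (1 : ℝ) / 2 ≤
        EE A (Fk ρ π β g) t (fun s => ind (zof β ∉ s.2)) := by
      intro t ht
      have h2 := EE_time (A := A) (Fk ρ π β k)
        (φ := fun Y => ind (Y.filter (ak ρ π β k)).Nonempty)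
        (fun Y Y' hY => ind_mono fun h' => h'.mono (filter_subset_filter _ hY)) (mem_range.1 ht).le
      have h3 := EE_couple (A := A) (f := Fk ρ π β g) (f' := Fk ρ π β k)
        (Φ := fun s => 1 - ind (s.2.filter (ak ρ π β k)).Nonempty) (N := fun y => ¬ ak ρ π β k y)
        (fun y hy => off π β k hk y fun h' => hy (Ag_anti (by omega) h')) (by
          rintro s ⟨y, hy, hN⟩
          rw [ind_pos ⟨y, mem_filter.2 ⟨hy, not_not.1 hN⟩⟩, sub_self]) t
      rw [ie_sub (ie_EE A (Fk ρ π β k) t), ie_const (ie_EE A (Fk ρ π β k) t)] at h3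
      have h4 : EE A (Fk ρ π β g) t (fun s => 1 - ind (s.2.filter (ak ρ π β k)).Nonempty)
          ≤ EE A (Fk ρ π β g) t (fun s => ind (zof β ∉ s.2)) := by
        refine ie_mono (ie_EE A _ t) fun s => ?_
        by_cases hs : zof β ∈ s.2
        · rw [ind_pos ⟨zof β, mem_filter.2 ⟨hs, fun p _ => congrFun (hz β) p⟩⟩, sub_self]
          exact ind_nonneg _
        · rw [ind_pos hs]
          linarith [ind_nonneg (s.2.filter (ak ρ π β k)).Nonempty]
      linarith
    have h2 := sum_le_sum h1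
    rw [sum_const, card_range, nsmul_eq_mul] at h2
    have h3 : ∑ t ∈ range (2 * h * T), EE A (Fk ρ π β g) t (fun s => ind (zof β ∉ s.2))
        ≤ ∑ t ∈ range (2 * h * T + T), EE A (Fk ρ π β g) t (fun s => ind (zof β ∉ s.2)) :=
      sum_le_sum_of_subset_of_nonneg (range_mono (Nat.le_add_right _ _))
        fun t _ _ => (ie_EE A _ t).nonneg fun _ => ind_nonneg _
    push_cast at h2
    linarith
  push Not at hc
  set Z : ℝ := (Fintype.card (Fin g → Cf B) : ℝ) with hZ
  set W : ℝ := (Fintype.card (Equiv.Perm (Fin g)) : ℝ) with hW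
  have hδ : ∀ π (k : ℕ), (2 * h + 1) * ∑ β, ∑ x, Ev A (Fk ρ π β k) T
      (fun s => ind (h < (DD ρ (s.2.filter (ak ρ π β k))).card)) (x, {x}) ≤ Z / 4 := by
    intro π k
    have h1 := sum_le_sum (s := univ) fun x _ => know_start A (fun β => Fk ρ π β k)
      (fun β => ak ρ π β k) (fun C => h < (DD ρ C).card) ((2 * B) ^ g / B ^ h) (by positivity)
      (fun C hC => by convert bad_count ρ hB π k h C hC)
      (fun y => part_inst (by omega) π k (ρ y)) T x
    rw [sum_const, card_univ, hX, nsmul_eq_mul, Fintype.card_fin] at h1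
    rw [sum_comm]
    have h2 : Z = B ^ g * 2 ^ (g * B) := by
      simp only [hZ, Fintype.card_fun, Fintype.card_prod, Fintype.card_fin, Fintype.card_bool]
      push_cast
      rw [mul_pow, ← pow_mul, mul_comm B g]
    refine (mul_le_mul_of_nonneg_left h1 (by positivity)).trans ?_
    have h3 : (0 : ℝ) < B ^ h := by positivity
    have h4 : (2 * h + 1) * (((2 ^ (r + g * B) : ℕ) : ℝ) * ((2 * B) ^ g / B ^ h
        * cc (Cf B) ^ (T + 1) * 2 ^ g))
        = (4 * (2 * h + 1) * 2 ^ r * 4 ^ g * cc (Cf B) ^ (T + 1) / B ^ h) * (Z / 4) := by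
      rw [h2, show (4 : ℝ) ^ g = 2 ^ g * 2 ^ g by rw [← mul_pow]; norm_num]
      push_cast
      rw [mul_pow, pow_add]
      field_simp
    rw [h4]
    refine mul_le_of_le_one_left (by positivity) ((div_le_one h3).2 hnum)
  have hk : ∀ k ∈ range (2 * h), W * Z * T / 16 ≤ ∑ π, ∑ β, ∑ t ∈ range (2 * h * T + T),
      EE A (Fk ρ π β g) t (fun s => ind (Ek ρ π β k s.2)) := by
    intro k hk
    rw [mem_range] at hk
    have h1 : ∀ π ∈ (univ : Finset (Equiv.Perm (Fin g))), Z * T / 4 ≤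
        ∑ β, ∑ t ∈ range (2 * h * T + T), EE A (Fk ρ π β k) t
        (fun s => ind ((s.2.filter (ak ρ π β k)).Nonempty ∧
          ¬ h < (DD ρ (s.2.filter (ak ρ π β k))).card)) := by
      intro π _
      have h2 := sum_le_sum (s := univ) fun β _ => window (A := A) (Fk ρ π β k) (ak ρ π β k)
        (fun C => h < (DD ρ C).card)
        (fun C C' hC h' => h'.trans_le (card_le_card (DD_mono ρ hC))) T (2 * h * T)
      have h3 := sum_le_sum (s := univ) fun β _ => hc π β k hk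
      rw [sum_const, card_univ, nsmul_eq_mul, ← hZ] at h3
      rw [sum_sub_distrib, ← mul_sum, ← mul_sum] at h2
      have h4 := mul_le_mul_of_nonneg_left (hδ π k) (Nat.cast_nonneg (α := ℝ) T)
      have h5 := mul_le_mul_of_nonneg_left h3 (Nat.cast_nonneg (α := ℝ) T)
      push_cast at h2
      linarith
    have h2 := sum_le_sum h1
    rw [sum_const, card_univ, nsmul_eq_mul, ← hW] at h2
    have h3 := sum_le_sum (s := range (2 * h * T + T)) fun t _ => sym_sum ρ A h hh hg k hk t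
    rw [← mul_sum, sum_comm, sum_comm (s := range (2 * h * T + T))] at h3
    simp only [sum_comm (s := range (2 * h * T + T))] at h3
    have h4 : ∑ π, ∑ β, ∑ t ∈ range (2 * h * T + T),
        EE A (Fk ρ π β g) t (fun s => ind (Ek ρ π β k s.2))
        = ∑ π, ∑ β, ∑ t ∈ range (2 * h * T + T),
        EE A (Fk ρ π β k) t (fun s => ind (Ek ρ π β k s.2)) := by
      refine sum_congr rfl fun π _ => sum_congr rfl fun β _ => sum_congr rfl fun t _ => ?_
      refine EE_couple (N := fun y => ¬ ak ρ π β (k + 1) y) (off π β k hk) ?_ t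
      rintro s ⟨y, hy, hN⟩
      exact ind_neg fun h' => hN (h'.1 y hy)
    linarith
  have h1 := sum_le_sum hk
  rw [sum_const, card_range, nsmul_eq_mul, sum_comm] at h1
  by_contra hcon
  push Not at hcon
  have h2 : ∑ π, ∑ k ∈ range (2 * h), ∑ β, ∑ t ∈ range (2 * h * T + T),
      EE A (Fk ρ π β g) t (fun s => ind (Ek ρ π β k s.2))
      < ∑ _π : Equiv.Perm (Fin g), ∑ _β : Fin g → Cf B, (h : ℝ) * T / 8 := by
    refine sum_lt_sum_of_nonempty univ_nonempty fun π _ => ?_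
    rw [sum_comm]
    refine sum_lt_sum_of_nonempty univ_nonempty fun β _ => lt_of_le_of_lt ?_ (hcon π β)
    rw [sum_comm]
    refine sum_le_sum fun t _ => ?_
    rw [← ie_sum (ie_EE A _ t)]
    exact ie_mono (ie_EE A _ t) fun s => Ek_sum ρ π β _ (hz β) _ _
  simp only [sum_const, card_univ, nsmul_eq_mul, ← hW, ← hZ] at h2
  push_cast at h1
  linarith

end Pool.Agent.H.MP_c5d8fa_lc
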