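import Pool.Agent.H.MP_c5d8fa_lc.D

set_option autoImplicit false

namespace Pool.Agent.H.MP_c5d8fa_lc

open Finset Pool.Agent.H.MP_f3ccbb_lc Classical

lemma num1 (r h : ℕ) (hr : r < 4096) (hh : 8200 ≤ h) : 4 * (2 * h + 1) * 2 ^ r ≤ 2 ^ h := by
  have h1 : h / 2 < 2 ^ (h / 2) := Nat.lt_two_pow_self
  have h2 : 2 ^ (h / 2 + 4 + r) ≤ 2 ^ h := Nat.pow_le_pow_right (by norm_num) (by omega)
  rw [pow_add, pow_add] at h2
  refine le_trans (Nat.mul_le_mul_right _ ?_) h2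
  omega

lemma inst {g B r n : ℕ} (e : Pos g B r ≃ Fin n) (π : Equiv.Perm (Fin g)) (β : Fin g → Cf B) :
    ∃ σ : Equiv.Perm (Fin n), ∀ x : Fin n → Bool, (univ.filter
      (fun i : Fin n => ∀ j : Fin n, j ≤ i → x (σ j) = (zz β ∘ e.symm) (σ j))).card
      = Fk (fun y : Fin n → Bool => y ∘ e) π β g x := by
  refine ⟨Tuple.sort (key π β ∘ e.symm), fun x => ?_⟩
  set σ := Tuple.sort (key π β ∘ e.symm)
  have hm : StrictMono ((key π β ∘ e.symm) ∘ σ) :=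
    (Tuple.monotone_sort _).strictMono_of_injective
      (((key_inj π β).comp e.symm.injective).comp σ.injective)
  unfold Fk ft
  refine card_equiv (σ.trans e.symm) fun i => ?_
  simp only [mem_filter, mem_univ, true_and, Equiv.trans_apply, Function.comp_apply]
  constructor
  · intro h
    refine ⟨key_lt _ _ _, fun p hp => ?_⟩
    have := h (σ.symm (e p)) (hm.le_iff_le.1 (by simpa using hp))
    simpa using this
  · rintro ⟨_, h⟩ j hj
    simpa using h (e.symm (σ j)) (hm.monotone hj)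

theorem final : ∃ c : ℝ, 0 < c ∧ ∃ N : ℕ, ∀ n : ℕ, N ≤ n → ∀ A : Alg (Fin n → Bool),
    ∃ (z : Fin n → Bool) (σ : Equiv.Perm (Fin n)), ∀ f : (Fin n → Bool) → ℕ,
      (∀ x, f x = (Finset.univ.filter
          (fun i : Fin n => ∀ j : Fin n, j ≤ i → x (σ j) = z (σ j))).card) →
      ENNReal.ofReal (c * (n : ℝ) ^ 2) ≤ 1 + ∑' t : ℕ, ∑ w : Fin n → Bool,
        ((Tr A f z)^[t] (A.ini.bind (fun x => PMF.pure (x, decide (x = z))))) (w, false) := by
  obtain ⟨B, hB⟩ : ∃ B : ℕ, B = 1024 := ⟨_, rfl⟩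
  haveI : Nonempty (Fin B) := ⟨⟨0, by omega⟩⟩
  obtain ⟨e, he0, he⟩ : ∃ e : ℕ, 0 < e ∧ cc (Cf B) ≤ 2 ^ e := by
    obtain ⟨m, hm⟩ := exists_nat_ge (cc (Cf B))
    refine ⟨m + 1, Nat.succ_pos _, hm.trans ?_⟩
    exact_mod_cast (Nat.le_succ m).trans Nat.lt_two_pow_self.le
  have he' : (0 : ℝ) < e := by exact_mod_cast he0
  refine ⟨1 / (16 * e * 8192 ^ 2), by positivity, 4096 * (8200 + 4 * e), fun n hn A => ?_⟩
  obtain ⟨h, hh⟩ : ∃ h, h = n / 4096 := ⟨_, rfl⟩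
  obtain ⟨r, hr⟩ : ∃ r, r = n % 4096 := ⟨_, rfl⟩
  obtain ⟨q, hq⟩ : ∃ q, q = h / e := ⟨_, rfl⟩
  have hq1 : e * q ≤ h := hq ▸ Nat.mul_div_le h e
  have hq2 : h < e * (q + 1) := hq ▸ Nat.lt_mul_div_succ h he0
  have hq3 : 4 ≤ q := hq ▸ (Nat.le_div_iff_mul_le he0).2 (by omega)
  obtain ⟨T, rfl⟩ : ∃ T, q = T + 1 := ⟨q - 1, by omega⟩
  have hn' : n = r + 4 * h * B := by rw [hB]; omega
  have E : Pos (4 * h) B r ≃ Fin n := Fintype.equivFinOfCardEq (by simp [hn', add_comm])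
  obtain ⟨π, β, hL⟩ := main (fun y : Fin n → Bool => y ∘ E) A h (by omega) rfl T (by simp [← hn'])
    (fun β => zz β ∘ E.symm) (fun β => by funext p; simp) (by
      have h1 : ((4 * (2 * h + 1) * 2 ^ r : ℕ) : ℝ) ≤ ((2 ^ h : ℕ) : ℝ) :=
        Nat.cast_le.2 (num1 r h (by omega) (by omega))
      have h2 : cc (Cf B) ^ (T + 1) ≤ 2 ^ h := by
        refine (pow_le_pow_left₀ (zero_le_one.trans cc_ge) he _).trans ?_
        rw [← pow_mul]
        exact pow_le_pow_right₀ (by norm_num) hq1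
      have h3 : (B : ℝ) ^ h = 2 ^ h * 4 ^ (4 * h) * 2 ^ h := by
        rw [hB, pow_mul, ← mul_pow, ← mul_pow]; norm_num
      push_cast at h1
      rw [h3]
      exact mul_le_mul (mul_le_mul_of_nonneg_right h1 (by positivity)) h2
        (pow_nonneg (zero_le_one.trans cc_ge) _) (by positivity))
  obtain ⟨σ, hσ⟩ := inst E π β
  refine ⟨zz β ∘ E.symm, σ, fun f hf => ?_⟩
  obtain rfl : f = Fk (fun y : Fin n → Bool => y ∘ E) π β (4 * h) :=
    funext fun x => (hf x).trans (by convert hσ x)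
  refine le_trans ?_ (le_add_left (ENNReal.sum_le_tsum (range (2 * h * T + T))))
  rw [sum_congr rfl fun t _ => link A _ _ t, ← ENNReal.ofReal_sum_of_nonneg
    (fun t _ => (ie_EE A _ t).nonneg fun _ => ind_nonneg _)]
  refine ENNReal.ofReal_le_ofReal (le_trans ?_ hL)
  have c1 : (n : ℝ) ≤ 8192 * h := by exact_mod_cast (by omega : n ≤ 8192 * h)
  have c2 : (h : ℝ) ≤ 2 * e * T := by
    have : h ≤ 2 * e * T := by nlinarith
    exact_mod_cast this
  have c3 : (n : ℝ) ^ 2 ≤ (8192 * h) ^ 2 := pow_le_pow_left₀ (by positivity) c1 2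
  have c4 : (h : ℝ) * h ≤ h * (2 * e * T) := mul_le_mul_of_nonneg_left c2 (by positivity)
  rw [one_div, inv_mul_le_iff₀ (by positivity)]
  nlinarith

end Pool.Agent.H.MP_c5d8fa_lc
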